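import Pool.Agent.H625.BCov.Tall

/-!
# Domination from pseudo-intersections, and mixing
-/

set_option autoImplicit false

namespace Pool.Agent.H625.BCov

open Set Filter Cardinal

variable {B : Type} [CompleteBooleanAlgebra B]

/-- pseudo-intersections give dominating functions -/
theorem dHyp_of_pHyp {κ : Cardinal.{0}} (hκ : ℵ₀ < κ) (h : PHyp B κ) : DHyp B κ := by
  classical
  intro Λ f hΛ
  let b : Λ ⊕ ℕ → Nm B := fun o => o.elim
    (fun i j => ⨅ n : {n // n ≤ (Nat.unpair j).1}, (f i).F n (Nat.unpair j).2)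
    (fun N j => if N ≤ (Nat.unpair j).1 then ⊤ else ⊥)
  have hfinite : ∀ (g : Fn B) (k : ℕ), Monotone (fun m => ⨅ n : {n // n ≤ k}, g.F n m) ∧
      (⨆ m, ⨅ n : {n // n ≤ k}, g.F n m) = ⊤ := by
    intro g k
    induction k with
    | zero =>
      have h1 : ∀ m, (⨅ n : {n // n ≤ 0}, g.F n m) = g.F 0 m := by
        intro m
        apply le_antisymm
        · exact iInf_le (fun n : {n // n ≤ 0} => g.F n m) ⟨0, le_rfl⟩
        · refine le_iInf fun n => ?_
          obtain ⟨n, hn⟩ := n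
          have : n = 0 := by omega
          subst this
          exact le_rfl
      simp only [h1]
      exact ⟨g.mono 0, g.sup 0⟩
    | succ k ih =>
      have h1 : ∀ m, (⨅ n : {n // n ≤ k + 1}, g.F n m) =
          (⨅ n : {n // n ≤ k}, g.F n m) ⊓ g.F (k + 1) m := by
        intro m
        apply le_antisymm
        · refine le_inf (le_iInf fun n => ?_) ?_
          · exact iInf_le (fun n : {n // n ≤ k + 1} => g.F n m) ⟨n.1, n.2.trans (Nat.le_succ k)⟩
          · exact iInf_le (fun n : {n // n ≤ k + 1} => g.F n m) ⟨k + 1, le_rfl⟩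
        · refine le_iInf fun n => ?_
          obtain ⟨n, hn⟩ := n
          rcases Nat.le_succ_iff.1 hn with h2 | rfl
          · exact inf_le_left.trans (iInf_le (fun n : {n // n ≤ k} => g.F n m) ⟨n, h2⟩)
          · exact inf_le_right
      simp only [h1]
      exact ⟨ih.1.inf (g.mono _), sup_inf_top ih.1 (g.mono _) ih.2 (g.sup _)⟩
  have hcol : ∀ s : Finset (Λ ⊕ ℕ), ∀ k, (∀ N, Sum.inr N ∈ s → N ≤ k) →
      Monotone (fun m => s.inf b (Nat.pair k m)) ∧ (⨆ m, s.inf b (Nat.pair k m)) = ⊤ := by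
    intro s
    induction s using Finset.induction_on with
    | empty =>
      intro k _
      simp only [Finset.inf_empty, Pi.top_apply]
      exact ⟨monotone_const, by simp⟩
    | insert o s _ ih =>
      intro k hk
      have h1 := ih k fun N hN => hk N (Finset.mem_insert_of_mem hN)
      have h2 : ∀ m, (insert o s).inf b (Nat.pair k m) =
          b o (Nat.pair k m) ⊓ s.inf b (Nat.pair k m) := by
        intro m
        rw [Finset.inf_insert]
        rfl
      simp only [h2]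
      have h3 : Monotone (fun m => b o (Nat.pair k m)) ∧ (⨆ m, b o (Nat.pair k m)) = ⊤ := by
        rcases o with i | N
        · have e1 : ∀ m, b (Sum.inl i) (Nat.pair k m) = ⨅ n : {n // n ≤ k}, (f i).F n m := by
            intro m
            show (⨅ n : {n // n ≤ (Nat.unpair (Nat.pair k m)).1},
              (f i).F n (Nat.unpair (Nat.pair k m)).2) = _
            rw [Nat.unpair_pair]
          simp only [e1]
          exact hfinite (f i) k
        · simp only [b, Sum.elim_inr, Nat.unpair_pair]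
          rw [if_pos (hk N (Finset.mem_insert_self _ _))]
          exact ⟨monotone_const, by simp⟩
      exact ⟨h3.1.inf h1.1, sup_inf_top h3.1 h1.1 h3.2 h1.2⟩
  obtain ⟨x, hx, hx'⟩ := h (Λ ⊕ ℕ) b (by
    rw [mk_sum]
    simp only [lift_id, mk_nat]
    exact add_lt_of_lt hκ.le hΛ hκ) (by
    intro s c hc N0
    obtain ⟨k, hk⟩ : ∃ k, N0 ≤ k ∧ ∀ N, Sum.inr N ∈ s → N ≤ k := by
      refine ⟨max N0 (s.sup fun o => o.elim (fun _ => 0) id), le_max_left _ _, fun N hN => ?_⟩
      exact (Finset.le_sup (f := fun o : Λ ⊕ ℕ => o.elim (fun _ => 0) id) hN).trans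
        (le_max_right _ _)
    have h1 := (hcol s k hk.2).2
    have h2 : c ⊓ (⨆ m, s.inf b (Nat.pair k m)) ≠ ⊥ := by rwa [h1, inf_top_eq]
    obtain ⟨m, hm⟩ := inf_iSup_ne.1 h2
    exact ⟨Nat.pair k m, hk.1.trans (Nat.left_le_pair k m), hm⟩)
  let H : Fn B :=
    { F := fun n m => ⨆ j : {j : ℕ // n ≤ (Nat.unpair j).1 ∧ (Nat.unpair j).2 ≤ m}, x j
      mono := fun n m m' hm => iSup_le fun j =>
        le_iSup (fun j : {j : ℕ // n ≤ (Nat.unpair j).1 ∧ (Nat.unpair j).2 ≤ m'} => x j)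
          ⟨j.1, j.2.1, j.2.2.trans hm⟩
      sup := fun n => by
        rw [eq_top_iff]
        apply le_of_dense
        intro c _ hc
        obtain ⟨c', hc', hc'0, N', hN'⟩ := hx' (Sum.inr n) c hc
        obtain ⟨j, hj, hj'⟩ := hx c' hc'0 N'
        have h1 := hN' j hj
        have h2 : n ≤ (Nat.unpair j).1 := by
          by_contra hcon
          have h3 : b (Sum.inr n) j = ⊥ := if_neg hcon
          rw [h3, le_bot_iff] at h1
          exact hj' h1
        refine ne_bot_mono (le_inf (inf_le_left.trans hc') ?_) hj'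
        refine inf_le_right.trans (le_iSup_of_le (Nat.unpair j).2 ?_)
        exact le_iSup (fun i : {i : ℕ // n ≤ (Nat.unpair i).1 ∧ (Nat.unpair i).2 ≤
          (Nat.unpair j).2} => x i) ⟨j, h2, le_rfl⟩ }
  refine ⟨H, fun i c hc => ?_⟩
  obtain ⟨c', hc', hc'0, N, hN⟩ := hx' (Sum.inl i) c hc
  refine ⟨c', hc', hc'0, N, fun n hn m => ?_⟩
  show c' ⊓ (⨆ j : {j : ℕ // n ≤ (Nat.unpair j).1 ∧ (Nat.unpair j).2 ≤ m}, x j) ≤ (f i).F n m
  rw [inf_iSup_eq]
  refine iSup_le fun j => ?_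
  have h1 : N ≤ j.1 := hn.trans (j.2.1.trans (Nat.unpair_left_le j.1))
  refine (hN j.1 h1).trans ?_
  have h2 : b (Sum.inl i) j.1 ≤ (f i).F n (Nat.unpair j.1).2 :=
    iInf_le (fun n : {n // n ≤ (Nat.unpair j.1).1} => (f i).F n (Nat.unpair j.1).2) ⟨n, j.2.1⟩
  exact h2.trans ((f i).mono n j.2.2)

/-- mixing names -/
theorem mix {E : Set B} (hE : ∀ b : B, b ≠ ⊥ → ∃ e ∈ E, e ≤ b ∧ e ≠ ⊥) (x : B → Nm B) :
    ∃ (A : Set B) (y : Nm B), A ⊆ E ∧ (∀ b : B, b ≠ ⊥ → ∃ e ∈ A, b ⊓ e ≠ ⊥) ∧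
      ∀ e ∈ A, ∀ k, e ⊓ y k = e ⊓ x e k := by
  let Φ : Set (Set B) := {A | A ⊆ E ∧ (∀ e ∈ A, e ≠ ⊥) ∧ ∀ e ∈ A, ∀ e' ∈ A, e ≠ e' → e ⊓ e' = ⊥}
  obtain ⟨A, hA⟩ := zorn_subset Φ (by
    intro c hc hchain
    refine ⟨⋃₀ c, ⟨?_, ?_, ?_⟩, fun s hs => subset_sUnion_of_mem hs⟩
    · exact sUnion_subset fun s hs => (hc hs).1
    · rintro e ⟨s, hs, he⟩
      exact (hc hs).2.1 e he
    · rintro e ⟨s, hs, he⟩ e' ⟨t, ht, he'⟩ hne
      rcases hchain.total hs ht with h | h
      · exact (hc ht).2.2 e (h he) e' he' hne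
      · exact (hc hs).2.2 e he e' (h he') hne)
  obtain ⟨hAE, hA0, hAd⟩ := hA.prop
  refine ⟨A, fun k => ⨆ e : A, (e.1 ⊓ x e.1 k), hAE, ?_, ?_⟩
  · intro b hb
    by_contra hcon
    push Not at hcon
    obtain ⟨e, he, heb, he0⟩ := hE b hb
    have h1 : ∀ a ∈ A, e ⊓ a = ⊥ := by
      intro a ha
      rw [← le_bot_iff, ← hcon a ha]
      exact inf_le_inf_right _ heb
    have h2 : insert e A ∈ Φ := by
      refine ⟨insert_subset he hAE, ?_, ?_⟩
      · rintro a (rfl | ha)
        · exact he0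
        · exact hA0 a ha
      · rintro a (rfl | ha) a' (rfl | ha') hne
        · exact absurd rfl hne
        · exact h1 a' ha'
        · rw [inf_comm]
          exact h1 a ha
        · exact hAd a ha a' ha' hne
    have h3 : e ∈ A := hA.le_of_ge h2 (subset_insert _ _) (mem_insert _ _)
    have h4 := h1 e h3
    rw [inf_idem] at h4
    exact he0 h4
  · intro e he k
    show e ⊓ (⨆ a : A, (a.1 ⊓ x a.1 k)) = e ⊓ x e k
    rw [inf_iSup_eq]
    apply le_antisymm
    · refine iSup_le fun a => ?_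
      by_cases h : e = a.1
      · rw [← h, ← inf_assoc, inf_idem]
      · rw [← inf_assoc, hAd e he a.1 a.2 h, bot_inf_eq]
        exact bot_le
    · refine le_iSup_of_le ⟨e, he⟩ ?_
      rw [← inf_assoc, inf_idem]

end Pool.Agent.H625.BCov
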