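import Pool.Agent.H625.BCov.Main

/-!
# Almost disjoint families of Boolean valued sets, and the conclusion
-/

set_option autoImplicit false

namespace Pool.Agent.H625.BCov

open Set Filter Cardinal

variable {B : Type} [CompleteBooleanAlgebra B]

/-! ### The rank of an element -/

/-- the value of `b ∩ k has n elements` -/
def rk (b : Nm B) : ℕ → ℕ → B
  | 0, 0 => ⊤
  | 0, _ + 1 => ⊥
  | k + 1, 0 => rk b k 0 ⊓ (b k)ᶜ
  | k + 1, n + 1 => (rk b k (n + 1) ⊓ (b k)ᶜ) ⊔ (rk b k n ⊓ b k)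

theorem rk_stay (b : Nm B) (k n : ℕ) : rk b k n ⊓ (b k)ᶜ ≤ rk b (k + 1) n := by
  cases n with
  | zero => exact le_rfl
  | succ n => exact le_sup_left

theorem rk_step (b : Nm B) (k n : ℕ) : rk b k n ⊓ b k ≤ rk b (k + 1) (n + 1) := le_sup_right

theorem rk_disj (b : Nm B) (k : ℕ) : ∀ n m, n ≠ m → rk b k n ⊓ rk b k m = ⊥ := by
  induction k with
  | zero =>
    intro n m hnm
    cases n with
    | zero =>
      cases m with
      | zero => exact absurd rfl hnm
      | succ m => exact inf_bot_eq _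
    | succ n => exact bot_inf_eq _
  | succ k ih =>
    have key : ∀ x y z w : B, x ⊓ z = ⊥ → y ⊓ w = ⊥ →
        ((x ⊓ (b k)ᶜ) ⊔ (y ⊓ b k)) ⊓ ((z ⊓ (b k)ᶜ) ⊔ (w ⊓ b k)) = ⊥ := by
      intro x y z w hxz hyw
      rw [inf_sup_left, inf_sup_right, inf_sup_right, ← le_bot_iff]
      refine sup_le (sup_le ?_ ?_) (sup_le ?_ ?_)
      · rw [← hxz]
        exact le_inf (inf_le_left.trans inf_le_left) (inf_le_right.trans inf_le_left)
      · rw [← inf_compl_eq_bot (a := b k)]
        exact le_inf (inf_le_left.trans inf_le_right) (inf_le_right.trans inf_le_right)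
      · rw [← compl_inf_eq_bot (a := b k)]
        exact le_inf (inf_le_left.trans inf_le_right) (inf_le_right.trans inf_le_right)
      · rw [← hyw]
        exact le_inf (inf_le_left.trans inf_le_left) (inf_le_right.trans inf_le_left)
    have h0 : rk b (k + 1) 0 = (rk b k 0 ⊓ (b k)ᶜ) ⊔ (⊥ ⊓ b k) := by
      rw [bot_inf_eq, sup_bot_eq]
      rfl
    have hs : ∀ n, rk b (k + 1) (n + 1) = (rk b k (n + 1) ⊓ (b k)ᶜ) ⊔ (rk b k n ⊓ b k) :=
      fun n => rfl
    intro n m hnm
    cases n with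
    | zero =>
      cases m with
      | zero => exact absurd rfl hnm
      | succ m =>
        rw [h0, hs]
        exact key _ _ _ _ (ih _ _ hnm) (bot_inf_eq _)
    | succ n =>
      cases m with
      | zero =>
        rw [h0, hs]
        exact key _ _ _ _ (ih _ _ hnm) (inf_bot_eq _)
      | succ m =>
        rw [hs, hs]
        exact key _ _ _ _ (ih _ _ hnm) (ih _ _ fun h => hnm (by rw [h]))

theorem rk_total (b : Nm B) (k : ℕ) : ∀ c : B, c ≠ ⊥ → ∃ n, c ⊓ rk b k n ≠ ⊥ := by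
  induction k with
  | zero =>
    intro c hc
    exact ⟨0, by
      show c ⊓ ⊤ ≠ ⊥
      rwa [inf_top_eq]⟩
  | succ k ih =>
    intro c hc
    obtain ⟨n, hn⟩ := ih c hc
    by_cases h : c ⊓ rk b k n ⊓ b k = ⊥
    · refine ⟨n, ne_bot_mono ?_ hn⟩
      refine le_inf inf_le_left (le_trans ?_ (rk_stay b k n))
      exact le_inf inf_le_right (disjoint_iff.2 h).le_compl_right
    · refine ⟨n + 1, ne_bot_mono ?_ h⟩
      refine le_inf (inf_le_left.trans inf_le_left) (le_trans ?_ (rk_step b k n))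
      exact le_inf (inf_le_left.trans inf_le_right) inf_le_right

theorem rk_mono (b : Nm B) (k n : ℕ) (j : ℕ) (hj : k ≤ j) :
    ∀ n', n' < n → rk b k n ⊓ rk b j n' = ⊥ := by
  induction j, hj using Nat.le_induction with
  | base => exact fun n' hn' => rk_disj b k n n' (by omega)
  | succ j _ ih =>
    intro n' hn'
    cases n' with
    | zero =>
      rw [← le_bot_iff, ← ih 0 hn']
      exact inf_le_inf_left _ inf_le_left
    | succ m =>
      have h1 := ih (m + 1) hn'
      have h2 := ih m (by omega)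
      have h3 : rk b (j + 1) (m + 1) ≤ rk b j (m + 1) ⊔ rk b j m :=
        sup_le_sup inf_le_left inf_le_left
      rw [← le_bot_iff]
      refine (inf_le_inf_left _ h3).trans ?_
      rw [inf_sup_left, h1, h2, sup_bot_eq]

theorem rk_stay_many {b : Nm B} {c : B} {N n : ℕ} (h : c ≤ rk b N n) (k : ℕ) (hk : N ≤ k) :
    (∀ j, N ≤ j → j < k → c ⊓ b j = ⊥) → c ≤ rk b k n := by
  induction k, hk using Nat.le_induction with
  | base => exact fun _ => h
  | succ k hk ih =>
    intro hj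
    have h1 := ih fun j h1 h2 => hj j h1 (h2.trans (Nat.lt_succ_self k))
    refine le_trans (le_inf h1 ?_) (rk_stay b k n)
    exact (disjoint_iff.2 (hj k hk (Nat.lt_succ_self k))).le_compl_right

theorem rk_hit {b : Nm B} (hb : Inf b) (d : ℕ) : ∀ (N n : ℕ) (c : B), c ≠ ⊥ → c ≤ rk b N n →
    ∃ k, N ≤ k ∧ c ⊓ b k ⊓ rk b k (n + d) ≠ ⊥ := by
  classical
  have next : ∀ (N n : ℕ) (c : B), c ≠ ⊥ → c ≤ rk b N n →
      ∃ k, N ≤ k ∧ c ⊓ b k ≠ ⊥ ∧ c ≤ rk b k n := by
    intro N n c hc hcn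
    have h1 := hb c hc N
    refine ⟨Nat.find h1, (Nat.find_spec h1).1, (Nat.find_spec h1).2, ?_⟩
    refine rk_stay_many hcn _ (Nat.find_spec h1).1 fun j hNj hj => ?_
    have := Nat.find_min h1 hj
    push Not at this
    exact this hNj
  induction d with
  | zero =>
    intro N n c hc hcn
    obtain ⟨k, hk, hk1, hk2⟩ := next N n c hc hcn
    exact ⟨k, hk, ne_bot_mono (le_inf le_rfl (inf_le_left.trans hk2)) hk1⟩
  | succ d ih =>
    intro N n c hc hcn
    obtain ⟨k, hk, hk1, hk2⟩ := next N n c hc hcn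
    obtain ⟨l, hl, hl'⟩ := ih (k + 1) (n + 1) (c ⊓ b k) hk1
      ((inf_le_inf_right _ hk2).trans (rk_step b k n))
    refine ⟨l, by omega, ne_bot_mono ?_ hl'⟩
    have h1 : n + 1 + d = n + (d + 1) := by omega
    rw [h1]
    exact inf_le_inf_right _ (inf_le_inf_right _ inf_le_left)

/-- the elements of `b` whose rank is in `E` -/
def pick (b : Nm B) (E : Set ℕ) : Nm B := fun k => b k ⊓ ⨆ n : E, rk b k n

theorem pick_le (b : Nm B) (E : Set ℕ) : pick b E ≤ b := fun _ => inf_le_left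

theorem inf_pick {b : Nm B} (hb : Inf b) {E : Set ℕ} (hE : E.Infinite) : Inf (pick b E) := by
  intro c hc N
  obtain ⟨n, hn⟩ := rk_total b N c hc
  obtain ⟨m, hm, hnm⟩ := hE.exists_gt n
  obtain ⟨k, hk, hk'⟩ := rk_hit hb (m - n) N n _ hn inf_le_right
  have h1 : n + (m - n) = m := by omega
  rw [h1] at hk'
  refine ⟨k, hk, ne_bot_mono ?_ hk'⟩
  refine le_inf (inf_le_left.trans (inf_le_left.trans inf_le_left)) (le_inf ?_ ?_)
  · exact inf_le_left.trans inf_le_right
  · exact inf_le_right.trans (le_iSup (fun n : E => rk b k n) ⟨m, hm⟩)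

theorem fin_pick {b : Nm B} (hb : Inf b) {E E' : Set ℕ} (hE : (E ∩ E').Finite) :
    Fin ⊤ (pick b E ⊓ pick b E') := by
  intro c _ hc
  obtain ⟨m, hm⟩ := hE.bddAbove
  obtain ⟨k, _, hk'⟩ := rk_hit hb (m + 1) 0 0 c hc le_top
  rw [Nat.zero_add] at hk'
  refine ⟨_, inf_le_left.trans inf_le_left, hk', k, fun j hj => ?_⟩
  rw [← le_bot_iff]
  show c ⊓ b k ⊓ rk b k (m + 1) ⊓ ((b j ⊓ ⨆ n : E, rk b j n) ⊓ (b j ⊓ ⨆ n : E', rk b j n)) ≤ ⊥
  have h1 : (b j ⊓ ⨆ n : E, rk b j n) ⊓ (b j ⊓ ⨆ n : E', rk b j n) ≤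
      (⨆ n : E, rk b j n) ⊓ ⨆ n : E', rk b j n := inf_le_inf inf_le_right inf_le_right
  have h2 : (⨆ n : E, rk b j n) ⊓ (⨆ n : E', rk b j n) ≤
      ⨆ n : {n // n < m + 1}, rk b j n.1 := by
    rw [iSup_inf_eq]
    refine iSup_le fun n => ?_
    rw [inf_iSup_eq]
    refine iSup_le fun n' => ?_
    by_cases h : n.1 = n'.1
    · have h3 : n.1 ≤ m := hm ⟨n.2, by rw [h]; exact n'.2⟩
      exact inf_le_left.trans (le_iSup (fun n : {n // n < m + 1} => rk b j n.1)
        ⟨n.1, Nat.lt_succ_of_le h3⟩)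
    · rw [rk_disj b j _ _ h]
      exact bot_le
  refine (inf_le_inf inf_le_right (h1.trans h2)).trans ?_
  rw [inf_iSup_eq]
  refine iSup_le fun n => ?_
  rw [rk_mono b k (m + 1) j hj n.1 n.2]

/-! ### The main theorem -/

variable {K : Type}

/-- The main theorem: every Boolean valued point of `ω*` is disjoint from a Boolean valued tall
P-ideal. -/
theorem exists_tallP
    (hB : ∀ D : Set B, (∀ d ∈ D, d ≠ ⊥) → (∀ d ∈ D, ∀ e ∈ D, d ≠ e → d ⊓ e = ⊥) → D.Countable)
    {U : Ultrafilter K}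
    (hU : ∀ (ι : Type) (f : ι → Set K), #ι ≤ ℵ₁ → (∀ i, f i ∈ U) → (⋂ i, f i) ∈ U)
    {κ : Cardinal.{0}} (hκ : ℵ₀ < κ) (hP : PHyp B κ) (hD : DHyp B κ) (M : K → Set (Nm B))
    (hM : ∀ δ, #(M δ) < κ) (hfine : ∀ a, {δ | a ∈ M δ} ∈ U) (p : Pt B) :
    ∃ J : Set (Nm B), TallP J ∧ ∀ x ∈ J, p.u x = ⊥ := by
  have hI := satIdeal_null hB U hU
  choose J C s hJ hJC hs using exists_control hU hI hκ hP hD M hM hfine
  -- a countable set of name-points
  let A : List ℕ → K → Pt B := fun l => l.foldr (fun k t => s t k) (fun _ => p)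
  have hA : ∀ l k, s (A l) k = A (k :: l) := fun l k => rfl
  obtain ⟨g, hg⟩ := exists_surjective_nat (List ℕ)
  let t : ℕ → K → Pt B := fun n => A (g n)
  have ht0 : ∃ n, t n = fun _ => p := by
    obtain ⟨n, hn⟩ := hg []
    exact ⟨n, by show A (g n) = _; rw [hn]; rfl⟩
  have hts : ∀ n k, ∃ m, t m = s (t n) k := by
    intro n k
    obtain ⟨m, hm⟩ := hg (k :: g n)
    exact ⟨m, by show A (g m) = s (A (g n)) k; rw [hm, hA]⟩
  have hJt : TallP (⋂ n, J (t n)) := tallP_iInter hκ hP fun n => hJ (t n)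
  refine ⟨{x | x ∈ ⋂ n, J (t n) ∧ ∀ n, V (t n) x ∈ Null U}, ⟨?_, ?_, ?_⟩, ?_⟩
  · rintro a b hab ⟨hb, hb'⟩
    exact ⟨hJt.down _ _ hab hb, fun n => hI.down _ _ (V_mono hab) (hb' n)⟩
  · intro b hb
    obtain ⟨b', hb'1, hb'2, hb'3⟩ := hJt.tall b hb
    obtain ⟨E, _, hE2, hE3⟩ := Pool.Agent.H625.Cov.exists_ad Set.infinite_univ
    let D : (ℕ → Bool) → Nm B := fun x => pick b' (E x)
    have hV : ∀ n x y, x ≠ y → V (t n) (D x) ⊓ V (t n) (D y) = ⊥ := by
      intro n x y hxy
      rw [← V_inf]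
      funext δ
      have := (t n δ).fin (fin_pick hb'2 (hE3 x y hxy))
      rwa [inf_top_eq] at this
    have hcount : ∀ n, {x | V (t n) (D x) ∉ (Null U : Set (K → B))}.Countable := by
      intro n
      have hinj : InjOn (fun x => V (t n) (D x)) {x | V (t n) (D x) ∉ (Null U : Set (K → B))} := by
        intro x hx y hy hxy
        by_contra hne'
        have h1 := hV n x y hne'
        have h2 : V (t n) (D x) = V (t n) (D y) := hxy
        rw [← h2, inf_idem] at h1
        apply hx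
        rw [h1]
        exact hI.bot
      refine MapsTo.countable_of_injOn (mapsTo_image _ _) hinj ?_
      refine hI.sat _ ?_ ?_
      · rintro _ ⟨x, hx, rfl⟩
        exact hx
      · rintro _ ⟨x, hx, rfl⟩ _ ⟨y, hy, rfl⟩ hxy
        exact hV n x y fun h => hxy (by rw [h])
    have hunc : ∃ x, x ∉ ⋃ n, {x | V (t n) (D x) ∉ (Null U : Set (K → B))} := by
      by_contra hcon
      push Not at hcon
      have h1 : (⋃ n, {x | V (t n) (D x) ∉ (Null U : Set (K → B))}) =
          (Set.univ : Set (ℕ → Bool)) := eq_univ_of_forall hcon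
      have h2 : (Set.univ : Set (ℕ → Bool)).Countable := by
        rw [← h1]
        exact countable_iUnion hcount
      have h3 : #(ℕ → Bool) ≤ ℵ₀ := mk_le_aleph0_iff.2 (countable_univ_iff.1 h2)
      have h4 : #(ℕ → Bool) = 2 ^ ℵ₀ := by simp
      rw [h4] at h3
      exact absurd h3 (not_le.2 (cantor _))
    obtain ⟨x, hx⟩ := hunc
    refine ⟨D x, (pick_le b' _).trans hb'1, inf_pick hb'2 (hE2 x),
      hJt.down _ _ (AS.of_le (pick_le b' _)) hb'3, ?_⟩
    intro n
    by_contra h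
    exact hx (mem_iUnion.2 ⟨n, h⟩)
  · intro x hx
    let a : ℕ → Nm B := fun m => (Finset.range (m + 1)).sup x
    have ha0 : ∀ m, x m ≤ a m := fun m =>
      Finset.le_sup (f := x) (Finset.mem_range.2 (Nat.lt_succ_self m))
    have ham : Monotone a := fun m n hmn =>
      Finset.sup_mono (Finset.range_mono (Nat.succ_le_succ hmn))
    have hasucc : ∀ m, a (m + 1) = x (m + 1) ⊔ a m := by
      intro m
      show (Finset.range (m + 1 + 1)).sup x = _
      rw [Finset.range_add_one, Finset.sup_insert]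
    have hazero : a 0 = x 0 := by
      show (Finset.range (0 + 1)).sup x = _
      simp
    have haJ : ∀ m, a m ∈ (⋂ n, J (t n)) ∧ ∀ n, V (t n) (a m) ∈ (Null U : Set (K → B)) := by
      intro m
      induction m with
      | zero =>
        rw [hazero]
        exact hx 0
      | succ m ih =>
        rw [hasucc]
        refine ⟨hJt.sup (hx (m + 1)).1 ih.1, fun n => ?_⟩
        rw [V_sup]
        exact hI.sup ((hx (m + 1)).2 n) (ih.2 n)
    obtain ⟨y, hy, hy'⟩ := hJt.pid a fun m => (haJ m).1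
    have hf : ∀ n, ∃ f : Fn B, V (t n) (cut a f) ⊓ C (t n) ∈ (Null U : Set (K → B)) := by
      intro n
      refine hs (t n) a ham fun k m => ?_
      obtain ⟨m', hm'⟩ := hts n k
      rw [← hm']
      exact (haJ m).2 m'
    choose f hf using hf
    obtain ⟨h, hh⟩ := exists_dom_nat f
    refine ⟨y ⊓ cut a h, ⟨hJt.down _ _ (AS.of_le inf_le_left) hy, fun n => ?_⟩, ?_⟩
    · rw [V_inf]
      refine hI.down _ _ ?_ (hI.sup (hJC (t n) y (mem_iInter.1 hy n)) (hf n))
      rw [← sup_inf_inf_compl (x := V (t n) y ⊓ V (t n) (cut a h)) (y := C (t n))]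
      refine sup_le (le_trans ?_ le_sup_right) (le_trans ?_ le_sup_left)
      · refine le_inf (inf_le_left.trans (inf_le_right.trans ?_)) inf_le_right
        exact V_mono (cut_as ham (hh n))
      · exact inf_le_inf_right _ inf_le_left
    · intro m
      exact (AS.of_le (ha0 m)).trans ((hy' m).inf (as_cut a h m))
  · rintro x ⟨_, hx⟩
    obtain ⟨n, hn⟩ := ht0
    have h1 := hx n
    rw [hn] at h1
    obtain ⟨δ, hδ⟩ := Ultrafilter.nonempty_of_mem h1
    exact hδ

end Pool.Agent.H625.BCov
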