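import Pool.Agent.H625.BCov.Tall
import Pool.Agent.H625.Cov.Base

/-!
# The main theorem, for Boolean valued sets
-/

set_option autoImplicit false

namespace Pool.Agent.H625.BCov

open Set Filter Cardinal

/-! ### Saturated ideals in complete Boolean algebras -/

/-- a `σ`-complete ideal such that every disjoint family of elements outside the ideal is
countable -/
structure SatIdeal {A : Type} [CompleteBooleanAlgebra A] (I : Set A) : Prop where
  bot : ⊥ ∈ I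
  down : ∀ a b, a ≤ b → b ∈ I → a ∈ I
  sigma : ∀ s : ℕ → A, (∀ n, s n ∈ I) → (⨆ n, s n) ∈ I
  sat : ∀ 𝒟 : Set A, (∀ d ∈ 𝒟, d ∉ I) → (∀ d ∈ 𝒟, ∀ e ∈ 𝒟, d ≠ e → d ⊓ e = ⊥) →
    𝒟.Countable

section Ideal

variable {A : Type} [CompleteBooleanAlgebra A] {I : Set A}

theorem SatIdeal.sup (hI : SatIdeal I) {a b : A} (ha : a ∈ I) (hb : b ∈ I) : a ⊔ b ∈ I := by
  refine hI.down _ _ ?_ (hI.sigma (fun n => if n = 0 then a else b) ?_)
  · refine sup_le ?_ ?_
    · exact le_iSup_of_le 0 (by simp)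
    · exact le_iSup_of_le 1 (by simp)
  · intro n
    by_cases hn : n = 0
    · simpa [hn] using ha
    · simpa [hn] using hb

/-- every family has a countable subfamily whose supremum covers its members modulo the ideal -/
theorem SatIdeal.cover (hI : SatIdeal I) {ι : Type*} (G : ι → A) :
    ∃ c : Set ι, c.Countable ∧ ∀ i, G i ⊓ (⨆ j ∈ c, G j)ᶜ ∈ I := by
  let Φ : Set (Set A) := {𝒟 | (∀ D ∈ 𝒟, D ∉ I) ∧
    (∀ D ∈ 𝒟, ∀ E ∈ 𝒟, D ≠ E → D ⊓ E = ⊥) ∧ ∀ D ∈ 𝒟, ∃ i, D ≤ G i}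
  obtain ⟨𝒟, h𝒟⟩ := zorn_subset Φ (by
    intro c hc hchain
    refine ⟨⋃₀ c, ⟨?_, ?_, ?_⟩, fun s hs => subset_sUnion_of_mem hs⟩
    · rintro D ⟨s, hs, hD⟩
      exact (hc hs).1 D hD
    · rintro D ⟨s, hs, hD⟩ E ⟨t, ht, hE⟩ hne
      rcases hchain.total hs ht with h | h
      · exact (hc ht).2.1 D (h hD) E hE hne
      · exact (hc hs).2.1 D hD E (h hE) hne
    · rintro D ⟨s, hs, hD⟩
      exact (hc hs).2.2 D hD)
  have hcount := hI.sat 𝒟 h𝒟.prop.1 h𝒟.prop.2.1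
  have hch : ∀ D : 𝒟, ∃ i, D.1 ≤ G i := fun D => h𝒟.prop.2.2 D.1 D.2
  choose g hg using hch
  have := hcount.to_subtype
  refine ⟨range g, countable_range g, fun i => ?_⟩
  by_contra hi
  set z : A := G i ⊓ (⨆ j ∈ range g, G j)ᶜ with hz
  have hdis : ∀ D ∈ 𝒟, z ⊓ D = ⊥ := by
    intro D hD
    have h1 : D ≤ ⨆ j ∈ range g, G j :=
      (hg ⟨D, hD⟩).trans (le_iSup₂_of_le (g ⟨D, hD⟩) (mem_range_self _) le_rfl)
    rw [← le_bot_iff, ← compl_inf_eq_bot (a := ⨆ j ∈ range g, G j)]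
    exact inf_le_inf inf_le_right h1
  have hmem : insert z 𝒟 ∈ Φ := by
    refine ⟨?_, ?_, ?_⟩
    · rintro D (rfl | hD)
      · exact hi
      · exact h𝒟.prop.1 D hD
    · rintro D (rfl | hD) E (rfl | hE) hne
      · exact absurd rfl hne
      · exact hdis E hE
      · rw [inf_comm]
        exact hdis D hD
      · exact h𝒟.prop.2.1 D hD E hE hne
    · rintro D (rfl | hD)
      · exact ⟨i, inf_le_left⟩
      · exact h𝒟.prop.2.2 D hD
  have hin : z ∈ 𝒟 := h𝒟.le_of_ge hmem (subset_insert _ _) (mem_insert _ _)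
  have h1 := hdis _ hin
  rw [inf_idem] at h1
  rw [h1] at hi
  exact hi hI.bot

/-- a countably upwards directed family has a maximum modulo the ideal -/
theorem SatIdeal.exists_max (hI : SatIdeal I) {ι : Type*} [Nonempty ι] (V : ι → A)
    (h : ∀ s : ℕ → ι, ∃ i, ∀ n, V (s n) ⊓ (V i)ᶜ ∈ I) : ∃ i, ∀ j, V j ⊓ (V i)ᶜ ∈ I := by
  obtain ⟨c, hc, hcov⟩ := hI.cover V
  rcases c.eq_empty_or_nonempty with rfl | hne
  · refine ⟨Classical.arbitrary ι, fun j => hI.down _ _ ?_ (hcov j)⟩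
    refine inf_le_inf_left _ ?_
    simp
  · obtain ⟨s, rfl⟩ := hc.exists_eq_range hne
    obtain ⟨i, hi⟩ := h s
    refine ⟨i, fun j => hI.down _ _ ?_ (hI.sup (hcov j) (hI.sigma _ hi))⟩
    have hS : (⨆ k ∈ range s, V k) = ⨆ n, V (s n) := by
      apply le_antisymm
      · refine iSup₂_le ?_
        rintro _ ⟨n, rfl⟩
        exact le_iSup (fun n => V (s n)) n
      · exact iSup_le fun n => le_iSup₂_of_le (s n) (mem_range_self n) le_rfl
    rw [hS, ← sup_inf_inf_compl (x := V j ⊓ (V i)ᶜ) (y := ⨆ n, V (s n))]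
    refine sup_le (le_trans ?_ le_sup_right) (le_trans ?_ le_sup_left)
    · rw [inf_iSup_eq]
      refine iSup_mono fun n => ?_
      exact le_inf inf_le_right (inf_le_left.trans inf_le_right)
    · exact inf_le_inf_right _ inf_le_left

/-- a countably downwards directed family has a minimum modulo the ideal -/
theorem SatIdeal.exists_min (hI : SatIdeal I) {ι : Type*} [Nonempty ι] (V : ι → A)
    (h : ∀ s : ℕ → ι, ∃ i, ∀ n, V i ⊓ (V (s n))ᶜ ∈ I) : ∃ i, ∀ j, V i ⊓ (V j)ᶜ ∈ I := by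
  have key : ∀ i j, (V i)ᶜ ⊓ ((V j)ᶜ)ᶜ = V j ⊓ (V i)ᶜ := fun i j => by
    rw [compl_compl, inf_comm]
  obtain ⟨i, hi⟩ := hI.exists_max (fun i => (V i)ᶜ) (fun s => by
    obtain ⟨i, hi⟩ := h s
    exact ⟨i, fun n => by
      rw [key]
      exact hi n⟩)
  exact ⟨i, fun j => by
    have := hi j
    rwa [key] at this⟩

end Ideal

/-! ### The ideal of the null functions from `K` to `B` -/

section Null

variable {B : Type} [CompleteBooleanAlgebra B] {K : Type}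

/-- the functions which vanish almost everywhere -/
def Null (U : Ultrafilter K) : Set (K → B) := {f | {δ | f δ = ⊥} ∈ U}

theorem satIdeal_null (hB : ∀ D : Set B, (∀ d ∈ D, d ≠ ⊥) → (∀ d ∈ D, ∀ e ∈ D, d ≠ e → d ⊓ e = ⊥) →
    D.Countable) (U : Ultrafilter K)
    (hU : ∀ (ι : Type) (f : ι → Set K), #ι ≤ ℵ₁ → (∀ i, f i ∈ U) → (⋂ i, f i) ∈ U) :
    SatIdeal (Null U : Set (K → B)) where
  bot := by
    have h1 : {δ | (⊥ : K → B) δ = ⊥} = Set.univ := eq_univ_of_forall fun _ => rfl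
    show {δ | (⊥ : K → B) δ = ⊥} ∈ U
    rw [h1]
    exact univ_mem
  down a b hab hb := by
    refine mem_of_superset hb fun δ hδ => ?_
    exact le_bot_iff.1 ((hab δ).trans (le_of_eq hδ))
  sigma s hs := by
    refine mem_of_superset (hU ℕ (fun n => {δ | s n δ = ⊥}) (by
      rw [mk_nat]
      exact aleph0_le_aleph 1) hs) fun δ hδ => ?_
    show (⨆ n, s n) δ = ⊥
    rw [iSup_apply, iSup_eq_bot]
    exact fun n => mem_iInter.1 hδ n
  sat D hD hdis := by
    by_contra hunc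
    have h1 : (ℵ₁ : Cardinal.{0}) ≤ #D := by
      rw [← succ_aleph0, Order.succ_le_iff, ← not_le, le_aleph0_iff_set_countable]
      exact hunc
    have h1' : #((ℵ₁ : Cardinal.{0}).out) ≤ #D := by rwa [mk_out]
    obtain ⟨e⟩ := h1'
    have h2 : ∀ ξ, {δ | (e ξ).1 δ ≠ ⊥} ∈ U := by
      intro ξ
      have := hD _ (e ξ).2
      have h3 : {δ | (e ξ).1 δ = ⊥}ᶜ ∈ U := Ultrafilter.compl_mem_iff_notMem.2 this
      exact h3
    obtain ⟨δ, hδ⟩ := Ultrafilter.nonempty_of_mem (hU _ _ (by rw [mk_out]) h2)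
    have h3 : ∀ ξ, (e ξ).1 δ ≠ ⊥ := fun ξ => mem_iInter.1 hδ ξ
    have hinj : Function.Injective fun ξ => (e ξ).1 δ := by
      intro ξ η h
      by_contra hne
      have h4 : (e ξ).1 ≠ (e η).1 := fun h' => hne (e.injective (Subtype.ext h'))
      have h5 := congrFun (hdis _ (e ξ).2 _ (e η).2 h4) δ
      have h6 : (e ξ).1 δ ⊓ (e η).1 δ = ⊥ := h5
      have h7 : (e ξ).1 δ = (e η).1 δ := h
      rw [← h7, inf_idem] at h6
      exact h3 ξ h6
    have h4 : (range fun ξ => (e ξ).1 δ).Countable := by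
      apply hB
      · rintro _ ⟨ξ, rfl⟩
        exact h3 ξ
      · rintro _ ⟨ξ, rfl⟩ _ ⟨η, rfl⟩ hne
        have h4 : (e ξ).1 ≠ (e η).1 := fun h' => hne (congrFun h' δ)
        exact congrFun (hdis _ (e ξ).2 _ (e η).2 h4) δ
    have h5 : #(range fun ξ => (e ξ).1 δ) = ℵ₁ := by
      rw [mk_range_eq _ hinj, mk_out]
    rw [← le_aleph0_iff_set_countable, h5] at h4
    exact absurd h4 (not_le.2 aleph0_lt_aleph_one)

end Null

/-! ### Name-points -/

section NP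

variable {B : Type} [CompleteBooleanAlgebra B] {K : Type} {I : Set (K → B)}

/-- the value of `a` at the name-point `t` -/
def V (t : K → Pt B) (a : Nm B) : K → B := fun δ => (t δ).u a

theorem V_mono {t : K → Pt B} {a b : Nm B} (h : AS a b) : V t a ≤ V t b :=
  fun δ => (t δ).as h

theorem V_inf {t : K → Pt B} {a b : Nm B} : V t (a ⊓ b) = V t a ⊓ V t b :=
  funext fun δ => (t δ).inf' a b

theorem V_sup {t : K → Pt B} {a b : Nm B} : V t (a ⊔ b) = V t a ⊔ V t b :=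
  funext fun δ => (t δ).sup a b

theorem V_bot {t : K → Pt B} : V t ⊥ = ⊥ := funext fun δ => (t δ).const' ⊥

theorem mem_of_le (hI : SatIdeal I) {a b : K → B} (h : a ≤ b) : a ⊓ bᶜ ∈ I := by
  have h1 : a ⊓ bᶜ = ⊥ := by
    rw [← le_bot_iff, ← inf_compl_eq_bot (a := b)]
    exact inf_le_inf_right _ h
  rw [h1]
  exact hI.bot

/-- every tall P-ideal has a member of maximal value -/
theorem exists_best (hI : SatIdeal I) (t : K → Pt B) {J : Set (Nm B)} (hJ : TallP J) :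
    ∃ x ∈ J, ∀ y ∈ J, V t y ⊓ (V t x)ᶜ ∈ I := by
  obtain ⟨a, _, _, ha⟩ := hJ.tall ⊤ inf_top
  have : Nonempty J := ⟨⟨a, ha⟩⟩
  obtain ⟨x, hx⟩ := hI.exists_max (fun x : J => V t x.1) (fun s => by
    obtain ⟨y, hy, hy'⟩ := hJ.pid (fun n => (s n).1) fun n => (s n).2
    exact ⟨⟨y, hy⟩, fun n => mem_of_le hI (V_mono (hy' n))⟩)
  exact ⟨x.1, x.2, fun y hy => hx ⟨y, hy⟩⟩

/-- the best tall P-ideal for a name-point -/
theorem exists_ideal (hI : SatIdeal I) {κ : Cardinal.{0}} (hκ : ℵ₀ < κ) (hP : PHyp B κ)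
    (t : K → Pt B) :
    ∃ (J : Set (Nm B)) (C : K → B), TallP J ∧ (∀ x ∈ J, V t x ⊓ Cᶜ ∈ I) ∧
      ∀ J' : Set (Nm B), TallP J' → ∃ x ∈ J', C ⊓ (V t x)ᶜ ∈ I := by
  let ι := {J : Set (Nm B) // TallP J}
  have : Nonempty ι := ⟨⟨Set.univ, tallP_univ⟩⟩
  have hb : ∀ J : ι, ∃ x ∈ J.1, ∀ y ∈ J.1, V t y ⊓ (V t x)ᶜ ∈ I := fun J => exists_best hI t J.2
  choose x hx hx' using hb
  obtain ⟨J, hJ⟩ := hI.exists_min (fun J : ι => V t (x J)) (fun s => by
    refine ⟨⟨_, tallP_iInter hκ hP fun n => (s n).2⟩, fun n => ?_⟩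
    exact hx' (s n) _ (mem_iInter.1 (hx ⟨_, tallP_iInter hκ hP fun n => (s n).2⟩) n))
  exact ⟨J.1, V t (x J), J.2, fun y hy => hx' J y hy, fun J' hJ' => ⟨x ⟨J', hJ'⟩, hx ⟨J', hJ'⟩,
    hJ ⟨J', hJ'⟩⟩⟩

/-- the function giving the cut of minimal value -/
theorem exists_cut (hI : SatIdeal I) (t : K → Pt B) {a : ℕ → Nm B} (ha : Monotone a) :
    ∃ f : Fn B, ∀ g : Fn B, V t (cut a f) ⊓ (V t (cut a g))ᶜ ∈ I := by
  have : Nonempty (Fn B) := ⟨⟨fun _ _ => ⊤, fun _ => monotone_const, fun _ => by simp⟩⟩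
  exact hI.exists_min (fun f : Fn B => V t (cut a f)) (fun s => by
    obtain ⟨g, hg⟩ := exists_dom_nat s
    exact ⟨g, fun n => mem_of_le hI (V_mono (cut_as ha (hg n)))⟩)

end NP

/-! ### Countably many name-points controlling a name-point -/

section Control

variable {B : Type} [CompleteBooleanAlgebra B] {K : Type}

/-- For every name-point `t` there are a tall P-ideal `J`, a value `C`, and countably many
name-points `s k` such that the members of `J` have value at most `C`, and for every increasing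
sequence `a` whose cuts all have a value meeting `C` in a function which is not null, some `a m`
has a value which is not null at some `s k`. -/
theorem exists_control {U : Ultrafilter K}
    (hU : ∀ (ι : Type) (f : ι → Set K), #ι ≤ ℵ₁ → (∀ i, f i ∈ U) → (⋂ i, f i) ∈ U)
    (hI : SatIdeal (Null U : Set (K → B))) {κ : Cardinal.{0}} (hκ : ℵ₀ < κ) (hP : PHyp B κ)
    (hD : DHyp B κ) (M : K → Set (Nm B)) (hM : ∀ δ, #(M δ) < κ) (hfine : ∀ a, {δ | a ∈ M δ} ∈ U)
    (t : K → Pt B) :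
    ∃ (J : Set (Nm B)) (C : K → B) (s : ℕ → K → Pt B), TallP J ∧
      (∀ x ∈ J, V t x ⊓ Cᶜ ∈ (Null U : Set (K → B))) ∧
      ∀ a : ℕ → Nm B, Monotone a → (∀ k m, V (s k) (a m) ∈ (Null U : Set (K → B))) →
        ∃ f : Fn B, V t (cut a f) ⊓ C ∈ (Null U : Set (K → B)) := by
  obtain ⟨J, C, hJ, hJC, hJmin⟩ := exists_ideal hI hκ hP t
  have h1 : ∀ δ, ∃ x ∈ JM (M δ), C ⊓ (V t x)ᶜ ∈ (Null U : Set (K → B)) := fun δ =>
    hJmin _ (tallP_JM hκ hP hD (hM δ))
  choose x hx hxC using h1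
  choose T hT using hx
  refine ⟨J, C, fun k δ => T δ k, hJ, hJC, ?_⟩
  intro a ha hs
  obtain ⟨f, hf⟩ := exists_cut hI t ha
  refine ⟨f, ?_⟩
  -- a good index
  have hgood : (⋂ i : ℕ ⊕ ℕ, i.elim (fun m => {δ | a m ∈ M δ})
      (fun j => {δ | V (fun δ => T δ (Nat.unpair j).1) (a (Nat.unpair j).2) δ = ⊥})) ∈ U := by
    refine hU _ _ ?_ ?_
    · simp only [mk_sum, mk_nat, lift_aleph0, aleph0_add_aleph0]
      exact aleph0_le_aleph 1
    · rintro (m | j)
      · exact hfine (a m)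
      · exact hs _ _
  obtain ⟨δ, hδ⟩ := Ultrafilter.nonempty_of_mem hgood
  have hδ1 : ∀ m, a m ∈ M δ := fun m => mem_iInter.1 hδ (Sum.inl m)
  have hδ2 : ∀ k m, (T δ k).u (a m) = ⊥ := by
    intro k m
    have := mem_iInter.1 hδ (Sum.inr (Nat.pair k m))
    have h2 : (T δ (Nat.unpair (Nat.pair k m)).1).u (a (Nat.unpair (Nat.pair k m)).2) = ⊥ := this
    rwa [Nat.unpair_pair] at h2
  have hfin : ∀ m, Fin ⊤ (x δ ⊓ a m) := by
    intro m
    have h2 := hT δ (a m) (hδ1 m)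
    have h3 : (⨆ l, (T δ l).u (a m)) = ⊥ := iSup_eq_bot.2 fun l => hδ2 l m
    rw [h3, compl_bot] at h2
    exact h2
  let g : Fn B := bdFn ⊤ (fun m => x δ ⊓ a m) hfin
  have hdis : cut a g ⊓ x δ = ⊥ := by
    funext i
    show (⨆ m, (a m i ⊓ g.F m i)) ⊓ x δ i = ⊥
    rw [iSup_inf_eq, iSup_eq_bot]
    intro m
    have h2 := bdFn_spec (h := hfin) m i
    rw [top_inf_eq] at h2
    rw [← le_bot_iff, ← h2]
    exact le_inf (le_inf inf_le_right (inf_le_left.trans inf_le_left))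
      (inf_le_left.trans inf_le_right)
  refine hI.down _ _ ?_ (hI.sup (hf g) (hxC δ))
  -- `V t (cut a f) ⊓ C ≤ ...`
  have h2 : V t (cut a g) ⊓ V t (x δ) = ⊥ := by
    rw [← V_inf, hdis, V_bot]
  rw [← sup_inf_inf_compl (x := V t (cut a f) ⊓ C) (y := V t (cut a g))]
  refine sup_le (le_trans ?_ le_sup_right) (le_trans ?_ le_sup_left)
  · refine le_inf (inf_le_left.trans inf_le_right) ?_
    refine inf_le_right.trans ?_
    rw [le_compl_iff_disjoint_right, disjoint_iff]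
    exact h2
  · exact inf_le_inf_right _ inf_le_left

end Control

end Pool.Agent.H625.BCov
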