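import Mathlib

/-!
# Boolean valued subsets of `ω`, points of `ω*` and tall P-ideals

`B` is a complete Boolean algebra. A Boolean valued subset of `ω` is a function from `ℕ` to `B`.
-/

set_option autoImplicit false

namespace Pool.Agent.H625.BCov

open Set Filter Cardinal

variable {B : Type} [CompleteBooleanAlgebra B]

/-- Boolean valued subsets of `ω` -/
abbrev Nm (B : Type) : Type := ℕ → B

theorem inf_iSup_ne {ι : Sort*} {b : B} {a : ι → B} :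
    b ⊓ (⨆ i, a i) ≠ ⊥ ↔ ∃ i, b ⊓ a i ≠ ⊥ := by
  rw [inf_iSup_eq, Ne, iSup_eq_bot]
  push Not
  rfl

theorem le_of_dense {b c : B} (h : ∀ d ≤ b, d ≠ ⊥ → d ⊓ c ≠ ⊥) : b ≤ c := by
  by_contra hbc
  have h1 : b ⊓ cᶜ ≠ ⊥ := fun h' => hbc (by
    have := (disjoint_iff.2 h').le_compl_right
    rwa [compl_compl] at this)
  refine h _ inf_le_left h1 ?_
  rw [inf_assoc, compl_inf_eq_bot, inf_bot_eq]

theorem eq_bot_of_le_compl {b c : B} (h1 : b ≤ c) (h2 : b ≤ cᶜ) : b = ⊥ := by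
  have : b ≤ c ⊓ cᶜ := le_inf h1 h2
  rwa [inf_compl_eq_bot, le_bot_iff] at this

theorem ne_bot_mono {b c : B} (h : b ≤ c) (hb : b ≠ ⊥) : c ≠ ⊥ := fun h' => hb (le_bot_iff.1 (h' ▸ h))

/-! ### Almost inclusion -/

/-- `c` forces that `x` is included in `y` from `N` on -/
def Fo (c : B) (x y : Nm B) (N : ℕ) : Prop := ∀ n, N ≤ n → c ⊓ x n ≤ y n

theorem Fo.mono {c c' : B} {x y : Nm B} {N N' : ℕ} (h : Fo c x y N) (hc : c' ≤ c) (hN : N ≤ N') :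
    Fo c' x y N' := fun n hn => (inf_le_inf_right _ hc).trans (h n (hN.trans hn))

/-- it is forced that `x` is almost included in `y` -/
def AS (x y : Nm B) : Prop := ∀ b : B, b ≠ ⊥ → ∃ c ≤ b, c ≠ ⊥ ∧ ∃ N, Fo c x y N

theorem AS.of_le {x y : Nm B} (h : x ≤ y) : AS x y := fun b hb =>
  ⟨b, le_rfl, hb, 0, fun n _ => inf_le_right.trans (h n)⟩

theorem AS.refl (x : Nm B) : AS x x := AS.of_le le_rfl

theorem AS.trans {x y z : Nm B} (h : AS x y) (h' : AS y z) : AS x z := by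
  intro b hb
  obtain ⟨c, hc, hc0, N, hN⟩ := h b hb
  obtain ⟨d, hd, hd0, M, hM⟩ := h' c hc0
  refine ⟨d, hd.trans hc, hd0, max N M, fun n hn => ?_⟩
  have h1 := hN n ((le_max_left _ _).trans hn)
  have h2 := hM n ((le_max_right _ _).trans hn)
  refine le_trans ?_ h2
  exact le_inf inf_le_left ((inf_le_inf_right _ hd).trans h1)

theorem AS.sup {x y z : Nm B} (h : AS x z) (h' : AS y z) : AS (x ⊔ y) z := by
  intro b hb
  obtain ⟨c, hc, hc0, N, hN⟩ := h b hb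
  obtain ⟨d, hd, hd0, M, hM⟩ := h' c hc0
  refine ⟨d, hd.trans hc, hd0, max N M, fun n hn => ?_⟩
  have h1 := hN n ((le_max_left _ _).trans hn)
  have h2 := hM n ((le_max_right _ _).trans hn)
  show d ⊓ (x n ⊔ y n) ≤ z n
  rw [inf_sup_left]
  exact sup_le ((inf_le_inf_right _ hd).trans h1) h2

theorem AS.inf {x y z : Nm B} (h : AS x y) (h' : AS x z) : AS x (y ⊓ z) := by
  intro b hb
  obtain ⟨c, hc, hc0, N, hN⟩ := h b hb
  obtain ⟨d, hd, hd0, M, hM⟩ := h' c hc0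
  refine ⟨d, hd.trans hc, hd0, max N M, fun n hn => ?_⟩
  have h1 := hN n ((le_max_left _ _).trans hn)
  have h2 := hM n ((le_max_right _ _).trans hn)
  exact le_inf ((inf_le_inf_right _ hd).trans h1) h2

/-! ### Infinite and finite sets -/

/-- it is forced that `x` is infinite -/
def Inf (x : Nm B) : Prop := ∀ b : B, b ≠ ⊥ → ∀ N, ∃ n, N ≤ n ∧ b ⊓ x n ≠ ⊥

theorem Inf.mono {x y : Nm B} (h : Inf x) (hxy : x ≤ y) : Inf y := by
  intro b hb N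
  obtain ⟨n, hn, hn'⟩ := h b hb N
  exact ⟨n, hn, ne_bot_mono (inf_le_inf_left _ (hxy n)) hn'⟩

theorem Inf.as {x y : Nm B} (h : Inf x) (hxy : AS x y) : Inf y := by
  intro b hb N
  obtain ⟨c, hc, hc0, M, hM⟩ := hxy b hb
  obtain ⟨n, hn, hn'⟩ := h c hc0 (max N M)
  refine ⟨n, (le_max_left _ _).trans hn, ne_bot_mono ?_ hn'⟩
  exact le_inf (inf_le_left.trans hc) (hM n ((le_max_right _ _).trans hn))

theorem Inf.iSup {x : Nm B} (h : Inf x) (N : ℕ) : (⨆ n : {n // N ≤ n}, x n) = ⊤ := by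
  rw [eq_top_iff]
  apply le_of_dense
  intro d _ hd
  rw [inf_iSup_ne]
  obtain ⟨n, hn, hn'⟩ := h d hd N
  exact ⟨⟨n, hn⟩, hn'⟩

/-- `e` forces that `z` is finite -/
def Fin (e : B) (z : Nm B) : Prop :=
  ∀ b ≤ e, b ≠ ⊥ → ∃ c ≤ b, c ≠ ⊥ ∧ ∃ N, ∀ n, N ≤ n → c ⊓ z n = ⊥

theorem Fin.mono {e e' : B} {z z' : Nm B} (h : Fin e z) (he : e' ≤ e) (hz : AS z' z) :
    Fin e' z' := by
  intro b hb hb0
  obtain ⟨c, hc, hc0, N, hN⟩ := h b (hb.trans he) hb0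
  obtain ⟨d, hd, hd0, M, hM⟩ := hz c hc0
  refine ⟨d, hd.trans hc, hd0, max N M, fun n hn => ?_⟩
  rw [← le_bot_iff, ← hN n ((le_max_left _ _).trans hn)]
  exact le_inf (inf_le_left.trans hd) (hM n ((le_max_right _ _).trans hn))

theorem Fin.le_iSup {e : B} {z : Nm B} (h : Fin e z) :
    e ≤ ⨆ k : ℕ, ⨅ j : {j // k ≤ j}, (z j)ᶜ := by
  apply le_of_dense
  intro d hd hd0
  obtain ⟨c, hc, hc0, N, hN⟩ := h d hd hd0
  refine ne_bot_mono ?_ hc0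
  refine le_inf hc (le_iSup_of_le N (le_iInf fun j => ?_))
  exact (disjoint_iff.2 (hN j.1 j.2)).le_compl_right

/-- finitely many finite sets have a common bound -/
theorem Fin.bound {e : B} {z : ℕ → Nm B} (h : ∀ n, Fin e (z n)) (M : ℕ) {b : B} (hb : b ≤ e)
    (hb0 : b ≠ ⊥) : ∃ c ≤ b, c ≠ ⊥ ∧ ∃ N, ∀ m < M, ∀ n, N ≤ n → c ⊓ z m n = ⊥ := by
  induction M with
  | zero => exact ⟨b, le_rfl, hb0, 0, fun m hm => absurd hm (Nat.not_lt_zero m)⟩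
  | succ M ih =>
    obtain ⟨c, hc, hc0, N, hN⟩ := ih
    obtain ⟨d, hd, hd0, N', hN'⟩ := h M c (hc.trans hb) hc0
    refine ⟨d, hd.trans hc, hd0, max N N', fun m hm n hn => ?_⟩
    rcases Nat.lt_succ_iff_lt_or_eq.1 hm with h1 | rfl
    · rw [← le_bot_iff, ← hN m h1 n ((le_max_left _ _).trans hn)]
      exact inf_le_inf_right _ hd
    · exact hN' n ((le_max_right _ _).trans hn)

/-! ### Points of `ω*` -/

/-- Boolean valued nonprincipal ultrafilters on `ω` -/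
structure Pt (B : Type) [CompleteBooleanAlgebra B] where
  u : Nm B → B
  inf' : ∀ x y, u (x ⊓ y) = u x ⊓ u y
  compl' : ∀ x, u xᶜ = (u x)ᶜ
  const' : ∀ b, u (fun _ => b) = b
  fin' : ∀ N : ℕ, u (fun n => if n < N then ⊤ else ⊥) = ⊥

theorem Pt.mono (p : Pt B) {x y : Nm B} (h : x ≤ y) : p.u x ≤ p.u y := by
  rw [← inf_eq_left.2 h, p.inf']
  exact inf_le_right

theorem Pt.sup (p : Pt B) (x y : Nm B) : p.u (x ⊔ y) = p.u x ⊔ p.u y := by
  have h1 : x ⊔ y = (xᶜ ⊓ yᶜ)ᶜ := by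
    rw [compl_inf, compl_compl, compl_compl]
  rw [h1, p.compl', p.inf', p.compl', p.compl', compl_inf, compl_compl, compl_compl]

theorem Pt.as (p : Pt B) {x y : Nm B} (h : AS x y) : p.u x ≤ p.u y := by
  by_contra hcon
  have h1 : p.u x ⊓ (p.u y)ᶜ ≠ ⊥ := fun h' => hcon (by
    have := (disjoint_iff.2 h').le_compl_right
    rwa [compl_compl] at this)
  obtain ⟨c, hc, hc0, N, hN⟩ := h _ h1
  have h2 : (fun _ => c) ⊓ x ≤ y ⊔ (fun n => if n < N then ⊤ else ⊥) := by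
    intro n
    show c ⊓ x n ≤ y n ⊔ if n < N then ⊤ else ⊥
    by_cases hn : n < N
    · simp [hn]
    · rw [if_neg hn, sup_bot_eq]
      exact hN n (not_lt.1 hn)
  have h3 := p.mono h2
  rw [p.inf', p.sup, p.const', p.fin', sup_bot_eq] at h3
  have h4 : c ≤ p.u y := (le_inf le_rfl (hc.trans inf_le_left)).trans h3
  exact hc0 (eq_bot_of_le_compl h4 (hc.trans inf_le_right))

theorem Pt.inf_of_top (p : Pt B) {x : Nm B} (h : p.u x = ⊤) : Inf x := by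
  intro b hb N
  by_contra hcon
  push Not at hcon
  have h2 : (fun _ => b) ⊓ x ≤ (fun n => if n < N then ⊤ else ⊥) := by
    intro n
    show b ⊓ x n ≤ if n < N then ⊤ else ⊥
    by_cases hn : n < N
    · simp [hn]
    · rw [if_neg hn, hcon n (not_lt.1 hn)]
  have h3 := p.mono h2
  rw [p.inf', p.const', p.fin', h, inf_top_eq, le_bot_iff] at h3
  exact hb h3

theorem Pt.fin (p : Pt B) {e : B} {z : Nm B} (h : Fin e z) : p.u z ⊓ e = ⊥ := by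
  by_contra hcon
  obtain ⟨c, hc, hc0, N, hN⟩ := h _ inf_le_right hcon
  have h2 : (fun _ => c) ⊓ z ≤ (fun n => if n < N then ⊤ else ⊥) := by
    intro n
    show c ⊓ z n ≤ if n < N then ⊤ else ⊥
    by_cases hn : n < N
    · simp [hn]
    · rw [if_neg hn, hN n (not_lt.1 hn)]
  have h3 := p.mono h2
  rw [p.inf', p.const', p.fin', le_bot_iff] at h3
  have h4 : c ≤ c ⊓ p.u z := le_inf le_rfl (hc.trans inf_le_left)
  rw [h3, le_bot_iff] at h4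
  exact hc0 h4

/-- every infinite set belongs to a point of `ω*` -/
theorem exists_pt {x0 : Nm B} (hx0 : Inf x0) : ∃ p : Pt B, p.u x0 = ⊤ := by
  let Φ : Set (Set (Nm B)) := {F | x0 ∈ F ∧ (∀ x ∈ F, Inf x) ∧ (∀ x ∈ F, ∀ y ∈ F, x ⊓ y ∈ F) ∧
    ∀ x ∈ F, ∀ y, x ≤ y → y ∈ F}
  have hbase : {y | x0 ≤ y} ∈ Φ := ⟨(le_rfl : x0 ≤ x0), fun x hx => hx0.mono hx,
    fun x hx y hy => show x0 ≤ x ⊓ y from le_inf hx hy,
    fun x hx y hy => show x0 ≤ y from le_trans hx hy⟩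
  obtain ⟨F, _, hF⟩ := zorn_subset_nonempty Φ (by
    intro c hc hchain hne
    refine ⟨⋃₀ c, ⟨?_, ?_, ?_, ?_⟩, fun s hs => subset_sUnion_of_mem hs⟩
    · obtain ⟨s, hs⟩ := hne
      exact ⟨s, hs, (hc hs).1⟩
    · rintro x ⟨s, hs, hx⟩
      exact (hc hs).2.1 x hx
    · rintro x ⟨s, hs, hx⟩ y ⟨t, ht, hy⟩
      rcases hchain.total hs ht with h | h
      · exact ⟨t, ht, (hc ht).2.2.1 x (h hx) y hy⟩
      · exact ⟨s, hs, (hc hs).2.2.1 x hx y (h hy)⟩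
    · rintro x ⟨s, hs, hx⟩ y hxy
      exact ⟨s, hs, (hc hs).2.2.2 x hx y hxy⟩) _ hbase
  obtain ⟨hF0, hFinf, hFcap, hFup⟩ := hF.prop
  have hmax : ∀ z : Nm B, (∀ f ∈ F, Inf (f ⊓ z)) → z ∈ F := by
    intro z hz
    have h1 : {y | ∃ f ∈ F, f ⊓ z ≤ y} ∈ Φ := by
      refine ⟨⟨x0, hF0, inf_le_left⟩, ?_, ?_, ?_⟩
      · rintro y ⟨f, hf, hfy⟩
        exact (hz f hf).mono hfy
      · rintro y ⟨f, hf, hfy⟩ y' ⟨f', hf', hfy'⟩
        refine ⟨f ⊓ f', hFcap f hf f' hf', le_inf ?_ ?_⟩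
        · exact (inf_le_inf_right _ inf_le_left).trans hfy
        · exact (inf_le_inf_right _ inf_le_right).trans hfy'
      · rintro y ⟨f, hf, hfy⟩ y' hyy'
        exact ⟨f, hf, hfy.trans hyy'⟩
    have h2 : F ⊆ {y | ∃ f ∈ F, f ⊓ z ≤ y} := fun f hf => ⟨f, hf, inf_le_left⟩
    exact hF.le_of_ge h1 h2 ⟨x0, hF0, inf_le_right⟩
  let u : Nm B → B := fun x => ⨅ f : F, ⨅ N : ℕ, ⨆ n : {n // N ≤ n}, (f.1 n ⊓ x n)
  have hu1 : ∀ x, ∀ f ∈ F, ∀ N : ℕ, u x ≤ ⨆ n : {n // N ≤ n}, (f n ⊓ x n) := fun x f hf N =>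
    (iInf_le _ (⟨f, hf⟩ : F)).trans (iInf_le _ N)
  have hmem : ∀ x, x ⊔ (fun _ => (u x)ᶜ) ∈ F := by
    intro x
    apply hmax
    intro f hf b hb N
    by_cases hbx : b ⊓ (u x)ᶜ = ⊥
    · have h1 : b ≤ u x := by
        have := (disjoint_iff.2 hbx).le_compl_right
        rwa [compl_compl] at this
      have h2 : b ⊓ ⨆ n : {n // N ≤ n}, (f n ⊓ x n) ≠ ⊥ := by
        rw [inf_eq_left.2 (h1.trans (hu1 x f hf N))]
        exact hb
      obtain ⟨⟨n, hn⟩, h3⟩ := inf_iSup_ne.1 h2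
      exact ⟨n, hn, ne_bot_mono (inf_le_inf_left _ (inf_le_inf_left _ le_sup_left)) h3⟩
    · obtain ⟨n, hn, h3⟩ := hFinf f hf _ hbx N
      refine ⟨n, hn, ne_bot_mono ?_ h3⟩
      show b ⊓ (u x)ᶜ ⊓ f n ≤ b ⊓ (f n ⊓ (x n ⊔ (u x)ᶜ))
      exact le_inf (inf_le_left.trans inf_le_left)
        (le_inf inf_le_right ((inf_le_left.trans inf_le_right).trans le_sup_right))
  have hmono : ∀ x y : Nm B, x ≤ y → u x ≤ u y := fun x y h =>
    iInf_mono fun f => iInf_mono fun N => iSup_mono fun n => inf_le_inf_left _ (h n)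
  have hcompl : ∀ x, u xᶜ = (u x)ᶜ := by
    intro x
    apply le_antisymm
    · -- disjointness
      rw [le_compl_iff_disjoint_right, disjoint_iff]
      by_contra hd
      have hg := hFcap _ (hmem x) _ (hmem xᶜ)
      obtain ⟨n, _, hn⟩ := hFinf _ hg _ hd 0
      apply hn
      rw [← le_bot_iff]
      show u xᶜ ⊓ u x ⊓ ((x n ⊔ (u x)ᶜ) ⊓ ((x n)ᶜ ⊔ (u xᶜ)ᶜ)) ≤ ⊥
      have h1 : u x ⊓ (x n ⊔ (u x)ᶜ) ≤ x n := by
        rw [inf_sup_left, inf_compl_eq_bot, sup_bot_eq]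
        exact inf_le_right
      have h2 : u xᶜ ⊓ ((x n)ᶜ ⊔ (u xᶜ)ᶜ) ≤ (x n)ᶜ := by
        rw [inf_sup_left, inf_compl_eq_bot, sup_bot_eq]
        exact inf_le_right
      have h3 : u xᶜ ⊓ u x ⊓ ((x n ⊔ (u x)ᶜ) ⊓ ((x n)ᶜ ⊔ (u xᶜ)ᶜ)) ≤ x n ⊓ (x n)ᶜ := by
        refine le_inf (le_trans ?_ h1) (le_trans ?_ h2)
        · exact le_inf (inf_le_left.trans inf_le_right) (inf_le_right.trans inf_le_left)
        · exact le_inf (inf_le_left.trans inf_le_left) (inf_le_right.trans inf_le_right)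
      rwa [inf_compl_eq_bot] at h3
    · refine le_iInf fun f => le_iInf fun N => ?_
      by_contra hcon
      have h1 : (u x)ᶜ ⊓ (⨆ n : {n // N ≤ n}, (f.1 n ⊓ xᶜ n))ᶜ ≠ ⊥ := fun h' => hcon (by
        have := (disjoint_iff.2 h').le_compl_right
        rwa [compl_compl] at this)
      have h2 : (u x)ᶜ = ⨆ f : F, ⨆ N : ℕ, (⨆ n : {n // N ≤ n}, (f.1 n ⊓ x n))ᶜ := by
        simp only [u, compl_iInf]
      rw [inf_comm, h2] at h1
      obtain ⟨f', h3⟩ := inf_iSup_ne.1 h1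
      obtain ⟨N', h4⟩ := inf_iSup_ne.1 h3
      obtain ⟨n, hn, h5⟩ := hFinf _ (hFcap f.1 f.2 f'.1 f'.2) _ h4 (max N N')
      apply h5
      rw [← le_bot_iff]
      have h6 : (⨆ n : {n // N ≤ n}, (f.1 n ⊓ xᶜ n))ᶜ ≤ (f.1 n ⊓ xᶜ n)ᶜ :=
        compl_le_compl (le_iSup (fun n : {n // N ≤ n} => f.1 n ⊓ xᶜ n)
          ⟨n, (le_max_left _ _).trans hn⟩)
      have h7 : (⨆ n : {n // N' ≤ n}, (f'.1 n ⊓ x n))ᶜ ≤ (f'.1 n ⊓ x n)ᶜ :=
        compl_le_compl (le_iSup (fun n : {n // N' ≤ n} => f'.1 n ⊓ x n)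
          ⟨n, (le_max_right _ _).trans hn⟩)
      refine (inf_le_inf_right _ (inf_le_inf h6 h7)).trans ?_
      show (f.1 n ⊓ (x n)ᶜ)ᶜ ⊓ (f'.1 n ⊓ x n)ᶜ ⊓ (f.1 n ⊓ f'.1 n) ≤ ⊥
      rw [compl_inf, compl_inf, compl_compl]
      have h8 : ((f.1 n)ᶜ ⊔ x n) ⊓ (f.1 n) ≤ x n := by
        rw [inf_sup_right, compl_inf_eq_bot, bot_sup_eq]
        exact inf_le_left
      have h9 : ((f'.1 n)ᶜ ⊔ (x n)ᶜ) ⊓ (f'.1 n) ≤ (x n)ᶜ := by
        rw [inf_sup_right, compl_inf_eq_bot, bot_sup_eq]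
        exact inf_le_left
      rw [← inf_compl_eq_bot (a := x n)]
      refine le_inf (le_trans ?_ h8) (le_trans ?_ h9)
      · exact le_inf (inf_le_left.trans inf_le_left) (inf_le_right.trans inf_le_left)
      · exact le_inf (inf_le_left.trans inf_le_right) (inf_le_right.trans inf_le_right)
  have hinf : ∀ x y, u (x ⊓ y) = u x ⊓ u y := by
    intro x y
    apply le_antisymm
    · exact le_inf (hmono _ _ inf_le_left) (hmono _ _ inf_le_right)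
    · refine le_iInf fun f => le_iInf fun N => ?_
      by_contra hcon
      have h1 : (u x ⊓ u y) ⊓ (⨆ n : {n // N ≤ n}, (f.1 n ⊓ (x ⊓ y) n))ᶜ ≠ ⊥ := fun h' => hcon (by
        have := (disjoint_iff.2 h').le_compl_right
        rwa [compl_compl] at this)
      obtain ⟨n, hn, h5⟩ := hFinf _ (hFcap f.1 f.2 _ (hFcap _ (hmem x) _ (hmem y))) _ h1 N
      apply h5
      rw [← le_bot_iff]
      have h6 : (⨆ n : {n // N ≤ n}, (f.1 n ⊓ (x ⊓ y) n))ᶜ ≤ (f.1 n ⊓ (x ⊓ y) n)ᶜ :=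
        compl_le_compl (le_iSup (fun n : {n // N ≤ n} => f.1 n ⊓ (x ⊓ y) n) ⟨n, hn⟩)
      refine (inf_le_inf_right _ (inf_le_inf_left _ h6)).trans ?_
      show u x ⊓ u y ⊓ (f.1 n ⊓ (x n ⊓ y n))ᶜ ⊓ (f.1 n ⊓ ((x n ⊔ (u x)ᶜ) ⊓ (y n ⊔ (u y)ᶜ))) ≤ ⊥
      have h8 : u x ⊓ (x n ⊔ (u x)ᶜ) ≤ x n := by
        rw [inf_sup_left, inf_compl_eq_bot, sup_bot_eq]
        exact inf_le_right
      have h9 : u y ⊓ (y n ⊔ (u y)ᶜ) ≤ y n := by
        rw [inf_sup_left, inf_compl_eq_bot, sup_bot_eq]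
        exact inf_le_right
      rw [← inf_compl_eq_bot (a := f.1 n ⊓ (x n ⊓ y n))]
      refine le_inf (le_inf (inf_le_right.trans inf_le_left) (le_inf (le_trans ?_ h8)
        (le_trans ?_ h9))) (inf_le_left.trans inf_le_right)
      · exact le_inf (inf_le_left.trans (inf_le_left.trans inf_le_left))
          (inf_le_right.trans (inf_le_right.trans inf_le_left))
      · exact le_inf (inf_le_left.trans (inf_le_left.trans inf_le_right))
          (inf_le_right.trans (inf_le_right.trans inf_le_right))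
  refine ⟨⟨u, hinf, hcompl, ?_, ?_⟩, ?_⟩
  · intro b
    have h1 : ∀ f : F, ∀ N : ℕ, (⨆ n : {n // N ≤ n}, (f.1 n ⊓ b)) = b := by
      intro f N
      rw [← iSup_inf_eq, (hFinf f.1 f.2).iSup N, top_inf_eq]
    have : Nonempty F := ⟨⟨x0, hF0⟩⟩
    show (⨅ f : F, ⨅ N : ℕ, ⨆ n : {n // N ≤ n}, (f.1 n ⊓ b)) = b
    simp only [h1, iInf_const]
  · intro N
    rw [← le_bot_iff]
    have h1 := hu1 (fun n => if n < N then (⊤ : B) else ⊥) x0 hF0 N
    refine h1.trans (iSup_le fun n => ?_)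
    rw [if_neg (not_lt.2 n.2), inf_bot_eq]
  · show u x0 = ⊤
    rw [eq_top_iff]
    refine le_iInf fun f => le_iInf fun N => ?_
    exact ((hFinf _ (hFcap f.1 f.2 x0 hF0)).iSup N).ge

end Pool.Agent.H625.BCov
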