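import Pool.Agent.H625.BCov.Names

/-!
# Tall P-ideals of Boolean valued sets
-/

set_option autoImplicit false

namespace Pool.Agent.H625.BCov

open Set Filter Cardinal

variable {B : Type} [CompleteBooleanAlgebra B]

/-- tall P-ideals of Boolean valued sets -/
structure TallP (J : Set (Nm B)) : Prop where
  down : ∀ a b, AS a b → b ∈ J → a ∈ J
  tall : ∀ b : Nm B, Inf b → ∃ a ≤ b, Inf a ∧ a ∈ J
  pid : ∀ x : ℕ → Nm B, (∀ n, x n ∈ J) → ∃ y ∈ J, ∀ n, AS (x n) y

theorem tallP_univ : TallP (Set.univ : Set (Nm B)) where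
  down _ _ _ _ := mem_univ _
  tall b hb := ⟨b, le_rfl, hb, mem_univ _⟩
  pid _ _ := ⟨⊤, mem_univ _, fun _ => AS.of_le le_top⟩

theorem inf_top : Inf (⊤ : Nm B) := fun b hb N => ⟨N, le_rfl, by
  show b ⊓ ⊤ ≠ ⊥
  rwa [inf_top_eq]⟩

theorem TallP.sup {J : Set (Nm B)} (h : TallP J) {a b : Nm B} (ha : a ∈ J) (hb : b ∈ J) :
    a ⊔ b ∈ J := by
  obtain ⟨y, hy, hy'⟩ := h.pid (fun n => if n = 0 then a else b) (by
    intro n
    by_cases hn : n = 0
    · simpa [hn] using ha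
    · simpa [hn] using hb)
  refine h.down _ _ ?_ hy
  have h0 := hy' 0
  have h1 := hy' 1
  simp only [if_true, one_ne_zero, if_false] at h0 h1
  exact h0.sup h1

/-- countable-countable interpolation -/
theorem exists_interp {x y : ℕ → Nm B} (h : ∀ m n, AS (x m) (y n)) :
    ∃ z, (∀ m, AS (x m) z) ∧ ∀ n, AS z (y n) := by
  refine ⟨fun k => ⨆ m, (x m k ⊓ ⨅ i : {i // i ≤ m}, y i k), ?_, ?_⟩
  · intro m b hb
    -- finitely many refinements
    have key : ∀ M : ℕ, ∃ c ≤ b, c ≠ ⊥ ∧ ∃ N, ∀ i < M, Fo c (x m) (y i) N := by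
      intro M
      induction M with
      | zero => exact ⟨b, le_rfl, hb, 0, fun i hi => absurd hi (Nat.not_lt_zero i)⟩
      | succ M ih =>
        obtain ⟨c, hc, hc0, N, hN⟩ := ih
        obtain ⟨d, hd, hd0, N', hN'⟩ := h m M c hc0
        refine ⟨d, hd.trans hc, hd0, max N N', fun i hi => ?_⟩
        rcases Nat.lt_succ_iff_lt_or_eq.1 hi with h1 | rfl
        · exact (hN i h1).mono hd (le_max_left _ _)
        · exact hN'.mono le_rfl (le_max_right _ _)
    obtain ⟨c, hc, hc0, N, hN⟩ := key (m + 1)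
    refine ⟨c, hc, hc0, N, fun k hk => ?_⟩
    refine le_iSup_of_le m (le_inf inf_le_right (le_iInf fun i => ?_))
    exact hN i.1 (Nat.lt_succ_of_le i.2) k hk
  · intro n b hb
    have key : ∀ M : ℕ, ∃ c ≤ b, c ≠ ⊥ ∧ ∃ N, ∀ i < M, Fo c (x i) (y n) N := by
      intro M
      induction M with
      | zero => exact ⟨b, le_rfl, hb, 0, fun i hi => absurd hi (Nat.not_lt_zero i)⟩
      | succ M ih =>
        obtain ⟨c, hc, hc0, N, hN⟩ := ih
        obtain ⟨d, hd, hd0, N', hN'⟩ := h M n c hc0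
        refine ⟨d, hd.trans hc, hd0, max N N', fun i hi => ?_⟩
        rcases Nat.lt_succ_iff_lt_or_eq.1 hi with h1 | rfl
        · exact (hN i h1).mono hd (le_max_left _ _)
        · exact hN'.mono le_rfl (le_max_right _ _)
    obtain ⟨c, hc, hc0, N, hN⟩ := key n
    refine ⟨c, hc, hc0, N, fun k hk => ?_⟩
    rw [inf_iSup_eq]
    refine iSup_le fun m => ?_
    by_cases hmn : m < n
    · exact (inf_le_inf_left _ inf_le_left).trans (hN m hmn k hk)
    · exact inf_le_right.trans (inf_le_right.trans (iInf_le _ (⟨n, not_lt.1 hmn⟩ : {i // i ≤ m})))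

/-- every family of fewer than `κ` sets, all finite subfamilies of which have an infinite
intersection, has an infinite pseudo-intersection -/
def PHyp (B : Type) [CompleteBooleanAlgebra B] (κ : Cardinal.{0}) : Prop :=
  ∀ (Λ : Type) (b : Λ → Nm B), #Λ < κ → (∀ s : Finset Λ, Inf (s.inf b)) →
    ∃ x, Inf x ∧ ∀ i, AS x (b i)

/-- a pseudo-intersection of a decreasing sequence of infinite sets -/
theorem exists_pseudo {κ : Cardinal.{0}} (hκ : ℵ₀ < κ) (hP : PHyp B κ) {b : ℕ → Nm B}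
    (hb : ∀ n, Inf (b n)) (hd : ∀ n, b (n + 1) ≤ b n) :
    ∃ a ≤ b 0, Inf a ∧ ∀ n, AS a (b n) := by
  have hd' : Antitone b := antitone_nat_of_succ_le hd
  obtain ⟨x, hx, hx'⟩ := hP ℕ b (by rwa [mk_nat]) (by
    intro s
    obtain ⟨M, hM⟩ : ∃ M, ∀ i ∈ s, i ≤ M := ⟨s.sup id, fun i hi => Finset.le_sup (f := id) hi⟩
    exact (hb M).mono (Finset.le_inf fun i hi => hd' (hM i hi)))
  refine ⟨x ⊓ b 0, inf_le_right, ?_, fun n => (AS.of_le inf_le_left).trans (hx' n)⟩
  exact hx.as ((AS.refl x).inf (hx' 0))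

/-- countable intersections of tall P-ideals -/
theorem tallP_iInter {κ : Cardinal.{0}} (hκ : ℵ₀ < κ) (hP : PHyp B κ) {J : ℕ → Set (Nm B)}
    (h : ∀ n, TallP (J n)) : TallP (⋂ n, J n) where
  down a b hab hb := mem_iInter.2 fun n => (h n).down a b hab (mem_iInter.1 hb n)
  tall b hb := by
    have step : ∀ n (c : Nm B), ∃ a : Nm B, Inf c → a ≤ c ∧ Inf a ∧ a ∈ J n := by
      intro n c
      by_cases hc : Inf c
      · obtain ⟨a, h1, h2, h3⟩ := (h n).tall c hc
        exact ⟨a, fun _ => ⟨h1, h2, h3⟩⟩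
      · exact ⟨⊥, fun h => absurd h hc⟩
    choose g hg using step
    let s : ℕ → Nm B := fun n => Nat.rec (g 0 b) (fun m r => g (m + 1) r) n
    have hs : ∀ n, s (n + 1) = g (n + 1) (s n) := fun n => rfl
    have hinf : ∀ n, Inf (s n) ∧ s n ∈ J n := by
      intro n
      induction n with
      | zero => exact (hg 0 b hb).2
      | succ m ih =>
        rw [hs]
        exact (hg (m + 1) _ ih.1).2
    have hd : ∀ n, s (n + 1) ≤ s n := fun n => by
      rw [hs]
      exact (hg (n + 1) _ (hinf n).1).1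
    obtain ⟨a, ha0, ha1, ha2⟩ := exists_pseudo hκ hP (fun n => (hinf n).1) hd
    refine ⟨a, ha0.trans (hg 0 b hb).1, ha1, mem_iInter.2 fun n => ?_⟩
    exact (h n).down _ _ (ha2 n) (hinf n).2
  pid x hx := by
    have : ∀ n, ∃ y ∈ J n, ∀ m, AS (x m) y := fun n =>
      (h n).pid x fun m => mem_iInter.1 (hx m) n
    choose y hy hy' using this
    obtain ⟨z, hz, hz'⟩ := exists_interp (x := x) (y := y) fun m n => hy' n m
    exact ⟨z, mem_iInter.2 fun n => (h n).down _ _ (hz' n) (hy n), hz⟩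

/-! ### Functions -/

/-- Boolean valued functions from `ω` to `ω`; `F m k` is the value of `f m ≤ k` -/
structure Fn (B : Type) [CompleteBooleanAlgebra B] where
  F : ℕ → ℕ → B
  mono : ∀ m, Monotone (F m)
  sup : ∀ m, (⨆ k, F m k) = ⊤

theorem Fn.exists_ne (f : Fn B) (m : ℕ) {b : B} (hb : b ≠ ⊥) : ∃ k, b ⊓ f.F m k ≠ ⊥ := by
  apply inf_iSup_ne.1
  rw [f.sup, inf_top_eq]
  exact hb

/-- the union of the sets `a m` cut from below by `f m` -/
def cut (a : ℕ → Nm B) (f : Fn B) : Nm B := fun n => ⨆ m, (a m n ⊓ f.F m n)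

theorem as_cut (a : ℕ → Nm B) (f : Fn B) (m : ℕ) : AS (a m) (cut a f) := by
  intro b hb
  obtain ⟨k, hk⟩ := f.exists_ne m hb
  refine ⟨_, inf_le_left, hk, k, fun n hn => le_iSup_of_le m ?_⟩
  exact le_inf inf_le_right ((inf_le_left.trans inf_le_right).trans (f.mono m hn))

theorem cut_as {a : ℕ → Nm B} (ha : Monotone a) {f g : Fn B} {N : ℕ}
    (h : ∀ n, N ≤ n → ∀ k, g.F n k ≤ f.F n k) : AS (cut a g) (cut a f) := by
  intro b hb
  obtain ⟨k, hk⟩ := f.exists_ne N hb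
  refine ⟨_, inf_le_left, hk, k, fun n hn => ?_⟩
  show b ⊓ f.F N k ⊓ (⨆ m, (a m n ⊓ g.F m n)) ≤ ⨆ m, (a m n ⊓ f.F m n)
  rw [inf_iSup_eq]
  refine iSup_le fun m => ?_
  rcases le_total N m with hNm | hNm
  · exact le_iSup_of_le m (inf_le_right.trans (inf_le_inf_left _ (h m hNm n)))
  · refine le_iSup_of_le N (le_inf ?_ ?_)
    · exact (inf_le_right.trans inf_le_left).trans (ha hNm n)
    · exact (inf_le_left.trans inf_le_right).trans (f.mono N hn)

theorem sup_inf_top {a c : ℕ → B} (ha : Monotone a) (hc : Monotone c) (ha' : (⨆ k, a k) = ⊤)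
    (hc' : (⨆ k, c k) = ⊤) : (⨆ k, (a k ⊓ c k)) = ⊤ := by
  rw [eq_top_iff]
  apply le_of_dense
  intro d _ hd
  have h1 : d ⊓ (⨆ k, a k) ≠ ⊥ := by rwa [ha', inf_top_eq]
  obtain ⟨k, hk⟩ := inf_iSup_ne.1 h1
  have h2 : (d ⊓ a k) ⊓ (⨆ k, c k) ≠ ⊥ := by rwa [hc', inf_top_eq]
  obtain ⟨l, hl⟩ := inf_iSup_ne.1 h2
  rw [inf_iSup_ne]
  refine ⟨max k l, ne_bot_mono ?_ hl⟩
  refine le_inf (inf_le_left.trans inf_le_left) (le_inf ?_ ?_)
  · exact (inf_le_left.trans inf_le_right).trans (ha (le_max_left _ _))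
  · exact inf_le_right.trans (hc (le_max_right _ _))

/-- countably many functions are dominated by one -/
theorem exists_dom_nat (f : ℕ → Fn B) : ∃ g : Fn B, ∀ i, ∀ n, i ≤ n → ∀ k,
    g.F n k ≤ (f i).F n k := by
  have key : ∀ n M : ℕ, Monotone (fun k => (Finset.range M).inf fun i => (f i).F n k) ∧
      (⨆ k, (Finset.range M).inf fun i => (f i).F n k) = ⊤ := by
    intro n M
    induction M with
    | zero => simp [monotone_const]
    | succ M ih =>
      have h1 : ∀ k, (Finset.range (M + 1)).inf (fun i => (f i).F n k) =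
          (f M).F n k ⊓ (Finset.range M).inf fun i => (f i).F n k := by
        intro k
        rw [Finset.range_add_one, Finset.inf_insert]
      simp only [h1]
      exact ⟨((f M).mono n).inf ih.1, sup_inf_top ((f M).mono n) ih.1 ((f M).sup n) ih.2⟩
  refine ⟨⟨fun n k => (Finset.range (n + 1)).inf fun i => (f i).F n k, fun n => (key n _).1,
    fun n => (key n _).2⟩, fun i n hin k => ?_⟩
  exact Finset.inf_le (f := fun i => (f i).F n k) (Finset.mem_range.2 (Nat.lt_succ_of_le hin))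

/-- the function bounding `x ∩ a m`, when it is finite -/
noncomputable def bdFn (e : B) (z : ℕ → Nm B) (h : ∀ m, Fin e (z m)) : Fn B where
  F m k := eᶜ ⊔ ⨅ j : {j // k ≤ j}, (z m j)ᶜ
  mono m k l hkl := by
    refine sup_le_sup_left (le_iInf fun j => ?_) _
    exact iInf_le (fun j : {j // k ≤ j} => (z m j)ᶜ) ⟨j.1, hkl.trans j.2⟩
  sup m := by
    rw [eq_top_iff, ← compl_sup_eq_top (x := e)]
    refine sup_le (le_iSup_of_le 0 le_sup_left) ((h m).le_iSup.trans ?_)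
    exact iSup_mono fun k => le_sup_right

theorem bdFn_spec {e : B} {z : ℕ → Nm B} {h : ∀ m, Fin e (z m)} (m k : ℕ) :
    e ⊓ (z m k ⊓ (bdFn e z h).F m k) = ⊥ := by
  show e ⊓ (z m k ⊓ (eᶜ ⊔ ⨅ j : {j // k ≤ j}, (z m j)ᶜ)) = ⊥
  rw [← le_bot_iff]
  have h1 : (⨅ j : {j // k ≤ j}, (z m j)ᶜ) ≤ (z m k)ᶜ :=
    iInf_le (fun j : {j // k ≤ j} => (z m j)ᶜ) ⟨k, le_rfl⟩
  calc e ⊓ (z m k ⊓ (eᶜ ⊔ ⨅ j : {j // k ≤ j}, (z m j)ᶜ))
      ≤ e ⊓ (z m k ⊓ (eᶜ ⊔ (z m k)ᶜ)) := inf_le_inf_left _ (inf_le_inf_left _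
        (sup_le_sup_left h1 _))
    _ = ⊥ := by
      rw [← compl_inf, ← inf_assoc, inf_compl_eq_bot]
    _ ≤ ⊥ := le_rfl

/-- it is forced that `f` is dominated by `h` -/
def DomAS (f h : Fn B) : Prop :=
  ∀ b : B, b ≠ ⊥ → ∃ c ≤ b, c ≠ ⊥ ∧ ∃ N, ∀ n, N ≤ n → ∀ k, c ⊓ h.F n k ≤ f.F n k

/-- every family of fewer than `κ` functions is dominated by one function -/
def DHyp (B : Type) [CompleteBooleanAlgebra B] (κ : Cardinal.{0}) : Prop :=
  ∀ (Λ : Type) (f : Λ → Fn B), #Λ < κ → ∃ h : Fn B, ∀ i, DomAS (f i) h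

/-! ### The tall P-ideals given by small families -/

/-- the sets `x` for which there is a countable set of points of `ω*` outside whose union all
members of `M` are almost disjoint from `x` -/
def JM (M : Set (Nm B)) : Set (Nm B) :=
  {x | ∃ T : ℕ → Pt B, ∀ b ∈ M, Fin (⨆ l, (T l).u b)ᶜ (x ⊓ b)}

theorem tallP_JM {κ : Cardinal.{0}} (hκ : ℵ₀ < κ) (hP : PHyp B κ) (hD : DHyp B κ)
    {M : Set (Nm B)} (hM : #M < κ) : TallP (JM M) where
  down a b hab := by
    rintro ⟨T, hT⟩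
    refine ⟨T, fun c hc => (hT c hc).mono le_rfl ?_⟩
    exact ((AS.of_le inf_le_left).trans hab).inf (AS.of_le inf_le_right)
  tall b hb := by
    classical
    obtain ⟨W, hW⟩ := exists_pt hb
    let F : Nm B → Nm B := fun c => (c ⊓ fun _ => W.u c) ⊔ (cᶜ ⊓ fun _ => (W.u c)ᶜ)
    have hF : ∀ c, W.u (F c) = ⊤ := by
      intro c
      show W.u ((c ⊓ fun _ => W.u c) ⊔ (cᶜ ⊓ fun _ => (W.u c)ᶜ)) = ⊤
      rw [W.sup, W.inf', W.inf', W.compl', W.const', W.const', inf_idem, inf_idem,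
        sup_compl_eq_top]
    let G : Option M → Nm B := fun o => o.elim b fun c => F c.1
    have hG : ∀ o, W.u (G o) = ⊤ := by
      rintro (_ | c)
      · exact hW
      · exact hF c.1
    obtain ⟨x, hx, hx'⟩ := hP (Option M) G (by
      rw [mk_option]
      exact add_lt_of_lt hκ.le hM (one_lt_aleph0.trans hκ)) (by
      intro s
      apply W.inf_of_top
      induction s using Finset.induction_on with
      | empty =>
        rw [Finset.inf_empty]
        exact W.const' ⊤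
      | insert o s _ ih =>
        rw [Finset.inf_insert, W.inf', hG, ih, inf_top_eq])
    have hxb : AS x b := hx' none
    refine ⟨x ⊓ b, inf_le_right, hx.as ((AS.refl x).inf hxb), fun _ => W, ?_⟩
    intro c hc
    have h1 : AS x (F c) := hx' (some ⟨c, hc⟩)
    intro d hd hd0
    have hd' : d ≤ (W.u c)ᶜ := by
      rwa [iSup_const] at hd
    obtain ⟨d', hd'1, hd'2, N, hN⟩ := h1 d hd0
    refine ⟨d', hd'1, hd'2, N, fun n hn => ?_⟩
    rw [← le_bot_iff, ← inf_compl_eq_bot (a := c n)]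
    refine le_inf (inf_le_right.trans inf_le_right) ?_
    have h2 : d' ⊓ (x n ⊓ b n ⊓ c n) ≤ F c n :=
      (inf_le_inf_left _ (inf_le_left.trans inf_le_left)).trans (hN n hn)
    have h3 : d' ⊓ (x n ⊓ b n ⊓ c n) ≤ (W.u c)ᶜ := inf_le_left.trans (hd'1.trans hd')
    refine (le_inf h2 h3).trans ?_
    show ((c n ⊓ W.u c) ⊔ ((c n)ᶜ ⊓ (W.u c)ᶜ)) ⊓ (W.u c)ᶜ ≤ (c n)ᶜ
    rw [inf_sup_right, inf_assoc, inf_compl_eq_bot, inf_bot_eq, bot_sup_eq]
    exact inf_le_left.trans inf_le_left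
  pid x hx := by
    choose T hT using hx
    let e : Nm B → B := fun b => (⨆ j : ℕ, (T (Nat.unpair j).1 (Nat.unpair j).2).u b)ᶜ
    have he : ∀ b n, e b ≤ (⨆ l, (T n l).u b)ᶜ := by
      intro b n
      refine compl_le_compl (iSup_le fun l => ?_)
      have := le_iSup (fun j : ℕ => (T (Nat.unpair j).1 (Nat.unpair j).2).u b) (Nat.pair n l)
      simpa only [Nat.unpair_pair] using this
    have hfin : ∀ b ∈ M, ∀ n, Fin (e b) (x n ⊓ b) := fun b hb n =>
      (hT n b hb).mono (he b n) (AS.refl _)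
    obtain ⟨h, hh⟩ := hD M (fun b => bdFn (e b.1) (fun n => x n ⊓ b.1) (hfin b.1 b.2)) hM
    refine ⟨cut x h, ⟨fun j => T (Nat.unpair j).1 (Nat.unpair j).2, ?_⟩, as_cut x h⟩
    intro b hb d hd hd0
    obtain ⟨c, hc, hc0, N, hN⟩ := hh ⟨b, hb⟩ d hd0
    obtain ⟨c', hc', hc'0, N', hN'⟩ := Fin.bound (hfin b hb) N (hc.trans hd) hc0
    refine ⟨c', hc'.trans hc, hc'0, N', fun j hj => ?_⟩
    show c' ⊓ ((⨆ n, (x n j ⊓ h.F n j)) ⊓ b j) = ⊥
    rw [iSup_inf_eq, inf_iSup_eq, iSup_eq_bot]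
    intro n
    rw [← le_bot_iff]
    by_cases hn : n < N
    · rw [← hN' n hn j hj]
      exact inf_le_inf_left _ (inf_le_inf_right _ inf_le_left)
    · rw [← bdFn_spec (h := hfin b hb) n j]
      refine le_inf (inf_le_left.trans (hc'.trans (hc.trans hd))) (le_inf ?_ ?_)
      · exact inf_le_right.trans (le_inf (inf_le_left.trans inf_le_left) inf_le_right)
      · refine le_trans ?_ (hN n (not_lt.1 hn) j)
        exact le_inf (inf_le_left.trans hc') (inf_le_right.trans (inf_le_left.trans inf_le_right))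

end Pool.Agent.H625.BCov
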